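import Pool.Agent.helper15.DH.Spec

set_option autoImplicit false

open Complex

namespace Pool.Agent.DH

open Pool.Agent.helper84.DM Pool.Agent.helper78.ED

theorem MONO_RR (Z : Finset ℂ) (n m j : ℕ) (hj : j ≠ 0) :
    RR Z (fun _ => 1) (n * j) (m * j) = RR Z (fun _ => 1) n m := by
  unfold RR
  refine Finset.sum_congr rfl fun ρ _ => ?_
  push_cast
  rw [natCast_mul_natCast_cpow, natCast_mul_natCast_cpow]
  have h : (j : ℂ) ^ (-((ρ.im : ℂ) * I)) * (j : ℂ) ^ ((ρ.im : ℂ) * I) = 1 := by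
    rw [← Complex.cpow_add _ _ (by exact_mod_cast hj)]
    simp
  linear_combination ((n : ℂ) ^ (-((ρ.im : ℂ) * I)) * (m : ℂ) ^ ((ρ.im : ℂ) * I)) * h

theorem MONO : MONO_stmt := by
  classical
  intro Z Y L B D hY hYL hB hD
  obtain ⟨q, hq⟩ : ∃ q, q = L / Y := ⟨_, rfl⟩
  have hq1 : 1 ≤ q := by rw [hq]; exact Nat.div_pos hYL hY
  have hqL : Y * q ≤ L := by rw [hq]; exact Nat.mul_div_le L Y
  have hLq : L < Y * (q + 1) := by rw [hq]; exact Nat.lt_mul_div_succ L hY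
  have hF0 : ∀ x y, 0 ≤ ‖RR Z (fun _ => 1) x y‖ ^ 2 := fun x y => by positivity
  have hS0 : 0 ≤ ∑ n ∈ B, ∑ m ∈ B, ‖RR Z (fun _ => 1) n m‖ ^ 2 :=
    Finset.sum_nonneg fun n _ => Finset.sum_nonneg fun m _ => hF0 n m
  have hmem : ∀ n ∈ B, ∀ j ∈ Finset.Ioc q (4 * q), n * j ∈ IL L := by
    intro n hn j hj
    obtain ⟨h1, h2⟩ := hB n hn
    rw [Finset.mem_Ioc] at hj
    obtain ⟨h3, h4⟩ := hj
    unfold IL
    rw [Finset.mem_Ioc]
    constructor
    · calc L < Y * (q + 1) := hLq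
        _ ≤ n * j := Nat.mul_le_mul h1 h3
    · calc n * j ≤ (2 * Y) * (4 * q) := Nat.mul_le_mul h2.le h4
        _ = 8 * (Y * q) := by ring
        _ ≤ 8 * L := Nat.mul_le_mul_left 8 hqL
  have key : (3 * q : ℝ) * ∑ n ∈ B, ∑ m ∈ B, ‖RR Z (fun _ => 1) n m‖ ^ 2 ≤ D * QQ Z L := by
    have e1 : (3 * q : ℝ) * ∑ n ∈ B, ∑ m ∈ B, ‖RR Z (fun _ => 1) n m‖ ^ 2 =
        ∑ t ∈ (B ×ˢ B) ×ˢ Finset.Ioc q (4 * q),
          ‖RR Z (fun _ => 1) (t.1.1 * t.2) (t.1.2 * t.2)‖ ^ 2 := by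
      rw [Finset.sum_product, Finset.sum_product, Finset.mul_sum]
      refine Finset.sum_congr rfl fun n _ => ?_
      rw [Finset.mul_sum]
      refine Finset.sum_congr rfl fun m _ => ?_
      have : ∀ j ∈ Finset.Ioc q (4 * q), ‖RR Z (fun _ => 1) (n * j) (m * j)‖ ^ 2 =
          ‖RR Z (fun _ => 1) n m‖ ^ 2 := by
        intro j hj
        rw [Finset.mem_Ioc] at hj
        rw [MONO_RR Z n m j (by omega)]
      dsimp only
      rw [Finset.sum_congr rfl this, Finset.sum_const, Nat.card_Ioc, nsmul_eq_mul]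
      have : 4 * q - q = 3 * q := by omega
      rw [this]
      push_cast
      ring
    have hmaps : ∀ t ∈ (B ×ˢ B) ×ˢ Finset.Ioc q (4 * q),
        (t.1.1 * t.2, t.1.2 * t.2) ∈ IL L ×ˢ IL L := by
      intro t ht
      rw [Finset.mem_product, Finset.mem_product] at ht
      rw [Finset.mem_product]
      exact ⟨hmem _ ht.1.1 _ ht.2, hmem _ ht.1.2 _ ht.2⟩
    rw [e1, ← Finset.sum_fiberwise_of_maps_to hmaps]
    unfold QQ
    rw [← Finset.sum_product', Finset.mul_sum]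
    refine Finset.sum_le_sum fun p hp => ?_
    rw [Finset.mem_product] at hp
    have e2 : ∀ t ∈ ((B ×ˢ B) ×ˢ Finset.Ioc q (4 * q)).filter
        (fun t => (t.1.1 * t.2, t.1.2 * t.2) = p),
        ‖RR Z (fun _ => 1) (t.1.1 * t.2) (t.1.2 * t.2)‖ ^ 2 =
          ‖RR Z (fun _ => 1) p.1 p.2‖ ^ 2 := by
      intro t ht
      rw [Finset.mem_filter] at ht
      rw [← ht.2]
    rw [Finset.sum_congr rfl e2, Finset.sum_const, nsmul_eq_mul]
    refine mul_le_mul_of_nonneg_right ?_ (hF0 _ _)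
    refine le_trans ?_ (hD p.1 hp.1)
    unfold d
    have hp1 : p.1 ≠ 0 := by
      have := hp.1
      unfold IL at this
      rw [Finset.mem_Ioc] at this
      omega
    have : (((B ×ˢ B) ×ˢ Finset.Ioc q (4 * q)).filter
        (fun t => (t.1.1 * t.2, t.1.2 * t.2) = p)).card ≤ p.1.divisors.card := by
      refine Finset.card_le_card_of_injOn (fun t => t.2) ?_ ?_
      · intro t ht
        have ht := Finset.mem_filter.1 (Finset.mem_coe.1 ht)
        refine Finset.mem_coe.2 (Nat.mem_divisors.2 ⟨?_, hp1⟩)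
        rw [← ht.2]
        exact Dvd.intro_left _ rfl
      · intro s hs t ht hst
        have hs := Finset.mem_filter.1 (Finset.mem_coe.1 hs)
        have ht := Finset.mem_filter.1 (Finset.mem_coe.1 ht)
        have hst : s.2 = t.2 := hst
        obtain ⟨⟨n, m⟩, j⟩ := s
        obtain ⟨⟨n', m'⟩, j'⟩ := t
        dsimp only at hst hs ht
        subst hst
        have hj : 0 < j := by
          have := (Finset.mem_product.1 hs.1).2
          rw [Finset.mem_Ioc] at this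
          dsimp only at this
          omega
        have h1 := hs.2.trans ht.2.symm
        rw [Prod.mk.injEq] at h1
        have h2 := Nat.eq_of_mul_eq_mul_right hj h1.1
        have h3 := Nat.eq_of_mul_eq_mul_right hj h1.2
        rw [h2, h3]
    exact_mod_cast this
  have hLr : (L : ℝ) ≤ (Y : ℝ) * (3 * q) := by
    have : L ≤ Y * (3 * q) := by
      calc L ≤ Y * (q + 1) := hLq.le
        _ ≤ Y * (3 * q) := Nat.mul_le_mul_left Y (by omega)
    exact_mod_cast this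
  calc (L : ℝ) * ∑ n ∈ B, ∑ m ∈ B, ‖RR Z (fun _ => 1) n m‖ ^ 2
      ≤ ((Y : ℝ) * (3 * q)) * ∑ n ∈ B, ∑ m ∈ B, ‖RR Z (fun _ => 1) n m‖ ^ 2 :=
        mul_le_mul_of_nonneg_right hLr hS0
    _ = (Y : ℝ) * ((3 * q : ℝ) * ∑ n ∈ B, ∑ m ∈ B, ‖RR Z (fun _ => 1) n m‖ ^ 2) := by ring
    _ ≤ (Y : ℝ) * (D * QQ Z L) := mul_le_mul_of_nonneg_left key (Nat.cast_nonneg Y)
    _ = (Y : ℝ) * D * QQ Z L := by ring

end Pool.Agent.DH
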