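import Pool.Agent.helper81.DH.SpecF

set_option autoImplicit false

open Filter Topology MeasureTheory
open scoped commutatorElement

namespace Pool.Agent.helper90.DH

open Pool.Agent.helper64.D2

theorem FML_ki {κ : ℝ → ℝ} (hκ : KER κ) : Integrable κ := by
  obtain ⟨hc, hn, _, hz, h1⟩ := hκ
  exact hc.continuous.integrable_of_hasCompactSupport (HasCompactSupport.intro isCompact_Icc hz)

theorem FML_avg {κ : ℝ → ℝ} (hκ : KER κ) {G : ℝ → ℝ} {a e : ℝ} (hG : Integrable (fun t => κ t * G t))
    (h : ∀ t : ℝ, |t| ≤ 1 → |G t - a| ≤ e) : |(∫ t, κ t * G t) - a| ≤ e := by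
  have hκi := FML_ki hκ
  obtain ⟨hc, hn, _, hz, h1⟩ := hκ
  have e1 : (∫ t, κ t * G t) - a = ∫ t, κ t * (G t - a) := by
    have h2 : ∫ t, κ t * (G t - a) = ∫ t, (κ t * G t - κ t * a) := by
      congr 1; funext t; ring
    rw [h2, integral_sub hG (hκi.mul_const a), integral_mul_const, h1, one_mul]
  have h3 : ∀ t, |κ t * (G t - a)| ≤ κ t * e := by
    intro t
    by_cases ht : |t| ≤ 1
    · rw [abs_mul, abs_of_nonneg (hn t)]
      exact mul_le_mul_of_nonneg_left (h t ht) (hn t)
    · have : κ t = 0 := hz t (fun hm => ht (abs_le.2 ⟨hm.1, hm.2⟩))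
      rw [this, zero_mul, zero_mul, abs_zero]
  rw [e1]
  calc |∫ t, κ t * (G t - a)| ≤ ∫ t, |κ t * (G t - a)| := abs_integral_le_integral_abs
    _ ≤ ∫ t, κ t * e := integral_mono_of_nonneg (Filter.Eventually.of_forall fun t => abs_nonneg _) (hκi.mul_const e) (Filter.Eventually.of_forall h3)
    _ = e := by rw [integral_mul_const, h1, one_mul]

theorem FML_int {κ : ℝ → ℝ} (hκ : KER κ) {v : ℝ → ℝ} (hv : BM v) (h x : ℝ) : Integrable (fun t => κ t * v (x - h * t)) := by
  obtain ⟨hm, ⟨B, hB⟩, _⟩ := hv
  refine Integrable.mono' ((FML_ki hκ).mul_const B) ?_ ?_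
  · exact (hκ.1.continuous.measurable.mul (hm.comp (by fun_prop))).aestronglyMeasurable
  · refine Filter.Eventually.of_forall fun t => ?_
    rw [Real.norm_eq_abs, abs_mul, abs_of_nonneg (hκ.2.1 t)]
    exact mul_le_mul_of_nonneg_left (hB _) (hκ.2.1 t)

theorem FML_A2 {v : ℝ → ℝ} (h0 : ∀ t : ℝ, t ≤ 0 → v t = 0) (x : ℝ) : A2 v x = ∫ t, max (x - t) 0 * v t := by
  unfold A2
  rcases le_or_gt 0 x with hx | hx
  · rw [intervalIntegral.integral_of_le hx, ← integral_indicator measurableSet_Ioc]
    congr 1
    funext t
    by_cases ht : t ∈ Set.Ioc 0 x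
    · rw [Set.indicator_of_mem ht, max_eq_left (by linarith [ht.2])]
    · rw [Set.indicator_of_notMem ht]
      rcases le_or_gt t 0 with h1 | h1
      · rw [h0 t h1, mul_zero]
      · have : x < t := by
          by_contra h2
          exact ht ⟨h1, not_lt.1 h2⟩
        rw [max_eq_right (by linarith), zero_mul]
  · rw [intervalIntegral.integral_of_ge hx.le]
    have e1 : ∫ t in Set.Ioc x 0, (x - t) * v t = 0 := by
      rw [setIntegral_congr_fun (g := fun _ => (0 : ℝ)) measurableSet_Ioc (fun t ht => by simp only []; rw [h0 t ht.2, mul_zero])]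
      simp
    have e2 : (fun t => max (x - t) 0 * v t) = fun _ => (0 : ℝ) := by
      funext t
      rcases le_or_gt t 0 with h1 | h1
      · rw [h0 t h1, mul_zero]
      · rw [max_eq_right (by linarith), zero_mul]
    rw [e1, e2]
    simp

theorem FML_vi {v : ℝ → ℝ} (hv : BM v) (x : ℝ) : Integrable (fun t => max (x - t) 0 * v t) := by
  obtain ⟨hm, ⟨B, hB⟩, hz⟩ := hv
  have hB0 : 0 ≤ B := le_trans (abs_nonneg _) (hB 0)
  have hi : Integrable (Set.indicator (Set.Icc (0 : ℝ) 1) (fun _ => |x| * B)) := by
    rw [integrable_indicator_iff measurableSet_Icc]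
    exact integrableOn_const (by rw [Real.volume_Icc]; exact ENNReal.ofReal_ne_top)
  refine Integrable.mono' hi ?_ ?_
  · have : Measurable (fun t : ℝ => max (x - t) 0) := by fun_prop
    exact (this.mul hm).aestronglyMeasurable
  · refine Filter.Eventually.of_forall fun t => ?_
    by_cases ht : t ∈ Set.Icc (0 : ℝ) 1
    · rw [Set.indicator_of_mem ht, Real.norm_eq_abs, abs_mul]
      refine mul_le_mul ?_ (hB t) (abs_nonneg _) (abs_nonneg _)
      rw [abs_of_nonneg (le_max_right _ _)]
      refine max_le ?_ (abs_nonneg _)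
      have := le_abs_self x
      linarith [ht.1]
    · rw [Set.indicator_of_notMem ht, hz t ht, mul_zero, norm_zero]

theorem FML_lip {v : ℝ → ℝ} (hv : BM v) {B : ℝ} (hB : ∀ x, |v x| ≤ B) (h0 : ∀ t : ℝ, t ≤ 0 → v t = 0) (x y : ℝ) :
    |A2 v y - A2 v x| ≤ B * |y - x| := by
  have hz := hv.2.2
  have hB0 : 0 ≤ B := le_trans (abs_nonneg _) (hB 0)
  rw [FML_A2 h0, FML_A2 h0, ← integral_sub (FML_vi hv y) (FML_vi hv x)]
  have hi : Integrable (Set.indicator (Set.Icc (0 : ℝ) 1) (fun _ => B * |y - x|)) := by
    rw [integrable_indicator_iff measurableSet_Icc]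
    exact integrableOn_const (by rw [Real.volume_Icc]; exact ENNReal.ofReal_ne_top)
  calc |∫ t, (max (y - t) 0 * v t - max (x - t) 0 * v t)| ≤ ∫ t, |max (y - t) 0 * v t - max (x - t) 0 * v t| := abs_integral_le_integral_abs
    _ ≤ ∫ t, Set.indicator (Set.Icc (0 : ℝ) 1) (fun _ => B * |y - x|) t := by
        refine integral_mono_of_nonneg (Filter.Eventually.of_forall fun t => abs_nonneg _) hi (Filter.Eventually.of_forall fun t => ?_)
        by_cases ht : t ∈ Set.Icc (0 : ℝ) 1
        · simp only []
          rw [Set.indicator_of_mem ht, ← sub_mul, abs_mul, mul_comm B]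
          refine mul_le_mul ?_ (hB t) (abs_nonneg _) (abs_nonneg _)
          have := abs_max_sub_max_le_abs (y - t) (x - t) 0
          have e : y - t - (x - t) = y - x := by ring
          rwa [e] at this
        · simp only []
          rw [Set.indicator_of_notMem ht, hz t ht, mul_zero, mul_zero, sub_zero, abs_zero]
    _ = B * |y - x| := by
        rw [integral_indicator measurableSet_Icc, setIntegral_const]
        simp

theorem FML : FML_stmt := by
  intro κ hκ v hv h hh
  refine ⟨fun x => FML_int hκ hv h x, fun x a e hae => ?_, ?_⟩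
  · exact FML_avg hκ (FML_int hκ hv h x) hae
  · intro B hB hsupp hh10 x
    have hB0 : 0 ≤ B := le_trans (abs_nonneg _) (hB 0)
    have h0 : ∀ t : ℝ, t ≤ 0 → v t = 0 := fun t ht => hsupp t (fun hm => by linarith [hm.1])
    have hm0 : ∀ t : ℝ, t ≤ 0 → mol κ h v t = 0 := by
      intro t ht
      unfold mol
      have : (fun s => κ s * v (t - h * s)) = fun _ => (0 : ℝ) := by
        funext s
        by_cases hs : s ∈ Set.Icc (-1 : ℝ) 1
        · rw [hsupp (t - h * s) (fun hm => ?_), mul_zero]
          have h1 : h * s ≥ - h := by nlinarith [hs.1]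
          linarith [hm.1]
        · rw [hκ.2.2.2.1 s hs, zero_mul]
      rw [this]
      simp
    have hmain : A2 (mol κ h v) x = ∫ s, κ s * A2 v (x - h * s) := by
      rw [FML_A2 hm0]
      have e1 : (fun t => max (x - t) 0 * mol κ h v t) = fun t => ∫ s, max (x - t) 0 * (κ s * v (t - h * s)) := by
        funext t
        rw [integral_const_mul]
        rfl
      rw [e1]
      have hfub : Integrable (Function.uncurry fun t s => max (x - t) 0 * (κ s * v (t - h * s))) (volume.prod volume) := by
        obtain ⟨C, hC⟩ : ∃ C : ℝ, ∀ s, |κ s| ≤ C := by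
          obtain ⟨C, hC⟩ := isCompact_Icc.exists_bound_of_continuousOn (hκ.1.continuous.continuousOn (s := Set.Icc (-1 : ℝ) 1))
          refine ⟨C, fun s => ?_⟩
          by_cases hs : s ∈ Set.Icc (-1 : ℝ) 1
          · exact hC s hs
          · rw [hκ.2.2.2.1 s hs, abs_zero]
            exact le_trans (norm_nonneg _) (hC 0 (by simp))
        have hC0 : 0 ≤ C := le_trans (abs_nonneg _) (hC 0)
        have hi : Integrable (Set.indicator (Set.Icc (0 : ℝ) 1 ×ˢ Set.Icc (-1 : ℝ) 1) (fun _ : ℝ × ℝ => |x| * (C * B))) (volume.prod volume) := by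
          rw [integrable_indicator_iff (measurableSet_Icc.prod measurableSet_Icc)]
          refine integrableOn_const ?_
          rw [Measure.prod_prod, Real.volume_Icc, Real.volume_Icc]
          exact ENNReal.mul_ne_top ENNReal.ofReal_ne_top ENNReal.ofReal_ne_top
        refine Integrable.mono' hi ?_ ?_
        · have m1 : Measurable (fun p : ℝ × ℝ => max (x - p.1) 0) := by fun_prop
          have m2 : Measurable (fun p : ℝ × ℝ => κ p.2) := hκ.1.continuous.measurable.comp measurable_snd
          have m3 : Measurable (fun p : ℝ × ℝ => v (p.1 - h * p.2)) := hv.1.comp (by fun_prop)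
          exact (m1.mul (m2.mul m3)).aestronglyMeasurable
        · refine Filter.Eventually.of_forall fun p => ?_
          obtain ⟨t, s⟩ := p
          simp only [Function.uncurry]
          by_cases hs : s ∈ Set.Icc (-1 : ℝ) 1
          · by_cases ht : t ∈ Set.Icc (0 : ℝ) 1
            · rw [Set.indicator_of_mem (show (t, s) ∈ Set.Icc (0 : ℝ) 1 ×ˢ Set.Icc (-1 : ℝ) 1 from ⟨ht, hs⟩), Real.norm_eq_abs, abs_mul, abs_mul]
              refine mul_le_mul ?_ (mul_le_mul (hC s) (hB _) (abs_nonneg _) hC0) (by positivity) (abs_nonneg _)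
              rw [abs_of_nonneg (le_max_right _ _)]
              refine max_le ?_ (abs_nonneg _)
              have := le_abs_self x
              linarith [ht.1]
            · have hv0 : v (t - h * s) = 0 := by
                apply hsupp
                intro hm
                apply ht
                have h1 : h * s ≥ - h := by nlinarith [hs.1]
                have h2 : h * s ≤ h := by nlinarith [hs.2]
                constructor
                · linarith [hm.1]
                · linarith [hm.2]
              rw [hv0, mul_zero, mul_zero, norm_zero]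
              exact Set.indicator_nonneg (fun _ _ => by positivity) _
          · rw [hκ.2.2.2.1 s hs, zero_mul, mul_zero, norm_zero]
            exact Set.indicator_nonneg (fun _ _ => by positivity) _
      rw [integral_integral_swap hfub]
      congr 1
      funext s
      have e2 : (fun t => max (x - t) 0 * (κ s * v (t - h * s))) = fun t => κ s * ((fun r => max (x - h * s - r) 0 * v r) (t - h * s)) := by
        funext t
        simp only []
        have : x - h * s - (t - h * s) = x - t := by ring
        rw [this]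
        ring
      rw [e2, integral_const_mul, integral_sub_right_eq_self (fun r => max (x - h * s - r) 0 * v r) (h * s), ← FML_A2 h0]
    rw [hmain]
    have hcont : Continuous (A2 v) := by
      have hL : LipschitzWith (Real.toNNReal B) (A2 v) := by
        refine LipschitzWith.of_dist_le_mul fun y z => ?_
        rw [Real.dist_eq, Real.dist_eq, Real.coe_toNNReal B hB0]
        exact FML_lip hv hB h0 z y
      exact hL.continuous
    refine FML_avg hκ ?_ ?_
    · refine Continuous.integrable_of_hasCompactSupport (hκ.1.continuous.mul (hcont.comp (by fun_prop))) ?_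
      refine HasCompactSupport.intro (K := Set.Icc (-1 : ℝ) 1) isCompact_Icc ?_
      intro s hs
      rw [hκ.2.2.2.1 s hs, zero_mul]
    · intro s hs
      refine (FML_lip hv hB h0 x (x - h * s)).trans ?_
      refine mul_le_mul_of_nonneg_left ?_ hB0
      have : x - h * s - x = -(h * s) := by ring
      rw [this, abs_neg, abs_mul, abs_of_pos hh]
      nlinarith

end Pool.Agent.helper90.DH
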