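import Pool.Agent.helper5.DH.Spec
import Pool.Agent.helper62.HY.SGE

set_option autoImplicit false

open Complex Metric Set Filter Topology MeasureTheory
open Pool.Agent.helper98.ILF Pool.Agent.helper16.Multibrot
open HY (UD T S hd UN RM VV SG Orb fz)

noncomputable section

namespace DH

theorem TOW (hRMI : HY.RMI_stmt) (hRMC : HY.RMC_stmt) (hVKB : HY.VKB_stmt) : TOW_stmt := by
  classical
  intro n c hn hc
  obtain ⟨-, h0f, hcf, -, -, -, -, hsub, hpre, hfil, -, -⟩ := hVKB n c hn hc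
  have key : ∀ (k : ℕ) (φ : ℂ → ℂ), RM (VV n c k) 0 φ → ∃ (ψ : ℂ → ℂ) (b : ℂ), RM (VV n c (k + 1)) 0 ψ ∧ b ∈ UD ∧
      φ b = c ∧ ∀ x ∈ UD, fz n c (ψ x) = φ (S b (x ^ n)) := by
    intro k φ hφ
    obtain ⟨b, hb, hbc, hrm⟩ := hRMC _ 0 c φ hφ (hfil k hcf)
    obtain ⟨ψ, hψ, hrel⟩ := hRMI n c _ _ hn hrm
    exact ⟨ψ, b, by rw [hpre k]; exact hψ, hb, hbc, hrel⟩
  choose nxt bb hnxt using key
  let P : (l : ℕ) → {φ : ℂ → ℂ // RM (VV n c l) 0 φ} := fun l =>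
    Nat.rec (motive := fun l => {φ : ℂ → ℂ // RM (VV n c l) 0 φ}) ⟨fun x => 4 * x, HY.SGE_zero n c⟩
      (fun l φ => ⟨nxt l φ.1 φ.2, (hnxt l φ.1 φ.2).1⟩) l
  refine ⟨fun l => (P l).1, fun l => bb l (P l).1 (P l).2, ⟨hn, hc, fun l => (P l).2, ?_, ?_, ?_⟩⟩
  · intro l
    exact (hnxt l (P l).1 (P l).2).2.1
  · intro l
    exact (hnxt l (P l).1 (P l).2).2.2.1
  · intro l x hx
    exact (hnxt l (P l).1 (P l).2).2.2.2 x hx

end DH
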